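import Pool.Agent.W659.PV.Stm

/-! PV-PARK (helper659): the choice of the parameters. -/

set_option autoImplicit false

namespace Pool.Agent.W688.PV.PARK

open Pool.Agent.W659.PV Filter Topology

/-- the binomial coefficient is at least `Y ^ k` if `2 k Y ≤ n` and `1 ≤ Y` -/
theorem choose_ge {n k : ℕ} {Y : ℝ} (hY : 1 ≤ Y) (h : 2 * (k : ℝ) * Y ≤ n) :
    Y ^ k ≤ (n.choose k : ℝ) := by
  rcases Nat.eq_zero_or_pos k with h0 | hpos
  · subst h0
    simp
  have hk0 : (0 : ℝ) < k := by exact_mod_cast hpos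
  have hkn : 2 * (k : ℝ) ≤ n := by nlinarith
  have hkn' : 2 * k ≤ n := by exact_mod_cast hkn
  have h1 : ((n + 1 - k : ℕ) ^ k : ℕ) ≤ k.factorial * n.choose k := by
    have h2 := Nat.pow_sub_le_descFactorial n k
    have h3 := Nat.descFactorial_eq_factorial_mul_choose n k
    rw [h3] at h2
    exact h2
  have h2 : (k.factorial : ℝ) ≤ (k : ℝ) ^ k := by exact_mod_cast Nat.factorial_le_pow k
  have h3 : ((n + 1 - k : ℕ) : ℝ) ^ k ≤ (k.factorial : ℝ) * n.choose k := by exact_mod_cast h1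
  have h4 : (k : ℝ) * Y ≤ ((n + 1 - k : ℕ) : ℝ) := by
    have h5 : ((n + 1 - k : ℕ) : ℝ) = (n : ℝ) + 1 - k := by
      rw [Nat.cast_sub (by omega)]
      push_cast
      ring
    rw [h5]
    nlinarith
  have h6 : ((k : ℝ) * Y) ^ k ≤ (k : ℝ) ^ k * n.choose k :=
    calc ((k : ℝ) * Y) ^ k ≤ ((n + 1 - k : ℕ) : ℝ) ^ k := pow_le_pow_left₀ (by positivity) h4 k
      _ ≤ (k.factorial : ℝ) * n.choose k := h3
      _ ≤ (k : ℝ) ^ k * n.choose k := mul_le_mul_of_nonneg_right h2 (by positivity)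
  rw [mul_pow] at h6
  exact le_of_mul_le_mul_left h6 (by positivity)

/-- the conditions on `l = log H`, with `X = l ^ C` -/
structure Big (R M Y : ℕ) (κ τ η₀ C θ l : ℝ) : Prop where
  L1 : 1 ≤ l
  x1 : 1 ≤ Real.log (l ^ C)
  X3 : (Y : ℝ) + 3 ≤ l ^ C
  lr : R * (Real.log 2 + 2 * ((l ^ C) ^ τ * Real.log (l ^ C + 1))) ≤ θ * l
  d3 : (M : ℝ) * Real.log 3 ≤ θ * l
  ld : Real.log M ≤ θ * l
  l2 : Real.log 2 ≤ θ * l
  e0 : -Real.log η₀ ≤ θ * Real.log (l ^ C)
  lx : Real.log (l ^ C) ≤ θ * l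
  ch : 1 ≤ 4 * κ * l ^ ((C - 1) / 2)

theorem big (R M Y : ℕ) {κ τ η₀ C θ : ℝ} (hκ : 0 < κ) (hτ : 0 < τ) (hC1 : 1 < C) (hC2 : C ≤ 2)
    (hCτ : C * τ < 1) (hθ : 0 < θ) : ∀ᶠ l : ℝ in atTop, Big R M Y κ τ η₀ C θ l := by
  have hC0 : 0 < C := by linarith
  have hX : Tendsto (fun l : ℝ => l ^ C) atTop atTop := tendsto_rpow_atTop hC0
  have hlX : Tendsto (fun l : ℝ => Real.log (l ^ C)) atTop atTop := Real.tendsto_log_atTop.comp hX
  have h4 : Tendsto (fun l : ℝ => θ * Real.log (l ^ C)) atTop atTop := hlX.const_mul_atTop hθ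
  have h5 : Tendsto (fun l : ℝ => θ * l) atTop atTop := tendsto_id.const_mul_atTop hθ
  have h5' : Tendsto (fun l : ℝ => θ / 2 * l) atTop atTop :=
    tendsto_id.const_mul_atTop (by positivity)
  have h6 : ∀ᶠ l : ℝ in atTop, ‖Real.log l‖ ≤ θ / 2 * ‖l‖ :=
    Real.isLittleO_log_id_atTop.bound (by positivity)
  have h7 : Tendsto (fun l : ℝ => 4 * κ * l ^ ((C - 1) / 2)) atTop atTop :=
    (tendsto_rpow_atTop (by linarith)).const_mul_atTop (by positivity)
  have h8 : ∀ᶠ l : ℝ in atTop, ‖Real.log l‖ ≤ θ / (16 * (R + 1)) * ‖l ^ (1 - C * τ)‖ :=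
    (isLittleO_log_rpow_atTop (by linarith)).bound (by positivity)
  filter_upwards [eventually_ge_atTop 1, hlX.eventually_ge_atTop 1,
    hX.eventually_ge_atTop ((Y : ℝ) + 3), h5.eventually_ge_atTop ((M : ℝ) * Real.log 3),
    h5.eventually_ge_atTop (Real.log M), h5.eventually_ge_atTop (Real.log 2),
    h4.eventually_ge_atTop (-Real.log η₀), h6, h7.eventually_ge_atTop 1, h8,
    h5'.eventually_ge_atTop ((R : ℝ) * Real.log 2)] with l a1 a2 a3 a4 a5 a6 a7 a8 a9 a10 a11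
  have b1 : 0 < l := by linarith
  have b2 : 0 ≤ Real.log l := Real.log_nonneg a1
  rw [Real.norm_of_nonneg b2, Real.norm_of_nonneg b1.le] at a8
  have b3 : 0 ≤ l ^ (1 - C * τ) := by positivity
  rw [Real.norm_of_nonneg b2, Real.norm_of_nonneg b3] at a10
  refine ⟨a1, a2, a3, ?_, a4, a5, a6, a7, ?_, a9⟩
  · have c1 : Real.log (l ^ C + 1) ≤ 2 * (C * Real.log l) := by
      rw [← Real.log_rpow b1, show (2 : ℝ) * Real.log (l ^ C) = Real.log ((l ^ C) ^ 2) by
        rw [Real.log_pow]; norm_num]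
      apply Real.log_le_log (by positivity)
      have : (3 : ℝ) ≤ l ^ C := by
        have : (0 : ℝ) ≤ Y := Nat.cast_nonneg _
        linarith
      nlinarith
    have c2 : (l ^ C) ^ τ = l ^ (C * τ) := by rw [← Real.rpow_mul b1.le]
    have c3 : l ^ (C * τ) * l ^ (1 - C * τ) = l := by
      rw [← Real.rpow_add b1]
      have : C * τ + (1 - C * τ) = 1 := by ring
      rw [this, Real.rpow_one]
    have c4 : 0 ≤ l ^ (C * τ) := by positivity
    have c5 : (l ^ C) ^ τ * Real.log (l ^ C + 1) ≤ θ / (4 * (R + 1)) * l := by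
      rw [c2]
      calc l ^ (C * τ) * Real.log (l ^ C + 1) ≤ l ^ (C * τ) * (2 * (C * Real.log l)) := by gcongr
        _ ≤ l ^ (C * τ) * (2 * (2 * (θ / (16 * (R + 1)) * l ^ (1 - C * τ)))) := by gcongr
        _ = θ / (4 * (R + 1)) * (l ^ (C * τ) * l ^ (1 - C * τ)) := by
          field_simp
          ring
        _ = θ / (4 * (R + 1)) * l := by rw [c3]
    have c6 : (R : ℝ) * (θ / (4 * (R + 1)) * l) ≤ θ / 4 * l := by
      have e1 : (R : ℝ) / (R + 1) ≤ 1 := by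
        rw [div_le_one (by positivity)]; linarith
      calc (R : ℝ) * (θ / (4 * (R + 1)) * l) = (R : ℝ) / (R + 1) * (θ / 4 * l) := by
            field_simp
        _ ≤ 1 * (θ / 4 * l) := by gcongr
        _ = θ / 4 * l := one_mul _
    have hR0 : (0 : ℝ) ≤ R := Nat.cast_nonneg _
    have c7 := mul_le_mul_of_nonneg_left c5 hR0
    nlinarith
  · rw [Real.log_rpow b1]
    nlinarith

theorem main' {R M Y : ℕ} {κ τ η₀ C θ γ : ℝ} (hM : 1 ≤ M) (hκ : 0 < κ) (hτ : 0 < τ) (hη₀ : 0 < η₀)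
    (hη₀1 : η₀ ≤ 1) (hC1 : 1 < C)
    (hγ : 2 * C * γ = C - 1) (hγ0 : 0 < γ) (hγ1 : γ ≤ 1 / 4) (hθ0 : 0 < θ) (hθ : 160 * θ = γ)
    {H : ℕ} (hH : 1 ≤ H) (hB : Big R M Y κ τ η₀ C θ (Real.log H)) :
    ∃ y : ℕ, Y ≤ y ∧
    ∀ (s L : ℕ), κ * (y / Real.log y) ≤ (s : ℝ) → 1 ≤ L →
      (L : ℝ) ≤ 2 * ((y : ℝ) + 1) ^ (2 * ⌊(y : ℝ) ^ τ⌋₊) →
      ∃ k : ℕ, 0 < s.choose k ∧
        (L : ℝ) ^ R * (((s.choose k : ℝ) * (2 * (H : ℝ) + 1) ^ M +
          (s.choose k : ℝ) ^ 2 * (M * (y : ℝ) ^ (2 * k) * (2 * (H : ℝ) + 1) ^ (M - 1))) /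
          (η₀ ^ (2 * k) * (s.choose k : ℝ) ^ 2)) ≤ (H : ℝ) ^ ((M : ℝ) - γ / 32) := by
  obtain ⟨l, hl⟩ : ∃ l : ℝ, l = Real.log H := ⟨_, rfl⟩
  obtain ⟨X, hX⟩ : ∃ X : ℝ, X = l ^ C := ⟨_, rfl⟩
  rw [← hl] at hB
  have hH0 : (0 : ℝ) < H := by exact_mod_cast hH
  have hH1 : (1 : ℝ) ≤ H := by exact_mod_cast hH
  obtain ⟨hL1, hx1, hX3, hlr, hd3, hld, hl2, he0, hlx, hch1⟩ := hB
  rw [← hX] at hx1 hX3 hlr he0 hlx
  have hl0 : 0 < l := by linarith
  have hY0 : (0 : ℝ) ≤ Y := Nat.cast_nonneg _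
  have hX0 : 0 < X := by linarith
  have hX1 : 1 ≤ X := by linarith
  have hlX0 : 0 < Real.log X := by linarith
  obtain ⟨y, hy⟩ : ∃ y : ℕ, y = ⌊X⌋₊ := ⟨_, rfl⟩
  have hy1 : (y : ℝ) ≤ X := by rw [hy]; exact Nat.floor_le hX0.le
  have hy2 : X < y + 1 := by rw [hy]; exact Nat.lt_floor_add_one _
  have hy3 : (2 : ℝ) ≤ y := by linarith
  have hy0 : (0 : ℝ) < y := by linarith
  have hly0 : 0 < Real.log y := Real.log_pos (by linarith)
  have hlyX : Real.log y ≤ Real.log X := Real.log_le_log hy0 hy1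
  refine ⟨y, ?_, ?_⟩
  · have : (Y : ℝ) ≤ y := by linarith
    exact_mod_cast this
  intro s L hs hL hLy
  obtain ⟨k, hk⟩ : ∃ k : ℕ, k = ⌊l / (16 * Real.log X)⌋₊ := ⟨_, rfl⟩
  have hk1 : (k : ℝ) ≤ l / (16 * Real.log X) := by
    rw [hk]; exact Nat.floor_le (by positivity)
  have hk2 : l / (16 * Real.log X) < k + 1 := by
    rw [hk]; exact Nat.lt_floor_add_one _
  have hk0 : (0 : ℝ) ≤ k := Nat.cast_nonneg k
  have hk3 : (k : ℝ) * Real.log X ≤ l / 16 := by
    rw [le_div_iff₀ (by positivity)] at hk1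
    linarith
  have hk4 : l / 16 < ((k : ℝ) + 1) * Real.log X := by
    rw [div_lt_iff₀ (by positivity)] at hk2
    linarith
  -- binomial coefficient
  have hZ1 : 1 ≤ l ^ ((C - 1) / 2) := Real.one_le_rpow hL1 (by linarith)
  have hlZ : l * l ^ ((C - 1) / 2) ≤ 4 * κ * X := by
    have e1 : X = l * l ^ ((C - 1) / 2) * l ^ ((C - 1) / 2) := by
      rw [hX]
      nth_rw 2 [← Real.rpow_one l]
      rw [← Real.rpow_add hl0, ← Real.rpow_add hl0]
      congr 1
      ring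
    calc l * l ^ ((C - 1) / 2) = (l * l ^ ((C - 1) / 2)) * 1 := (mul_one _).symm
      _ ≤ (l * l ^ ((C - 1) / 2)) * (4 * κ * l ^ ((C - 1) / 2)) := by gcongr
      _ = 4 * κ * (l * l ^ ((C - 1) / 2) * l ^ ((C - 1) / 2)) := by ring
      _ = 4 * κ * X := by rw [← e1]
  have hks : 2 * (k : ℝ) * l ^ ((C - 1) / 2) ≤ s := by
    have e1 : 2 * (k : ℝ) ≤ l / (8 * Real.log X) := by
      have : l / (8 * Real.log X) = 2 * (l / (16 * Real.log X)) := by
        field_simp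
        ring
      rw [this]
      linarith
    have e2 : X / 2 ≤ y := by linarith
    calc 2 * (k : ℝ) * l ^ ((C - 1) / 2) ≤ l / (8 * Real.log X) * l ^ ((C - 1) / 2) := by gcongr
      _ = (l * l ^ ((C - 1) / 2)) / (8 * Real.log X) := by ring
      _ ≤ (4 * κ * X) / (8 * Real.log X) := by gcongr
      _ = κ * ((X / 2) / Real.log X) := by
        field_simp
        ring
      _ ≤ κ * (y / Real.log y) := by gcongr
      _ ≤ s := hs
  have hch := choose_ge hZ1 hks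
  have hch0 : (0 : ℝ) < s.choose k := lt_of_lt_of_le (by positivity) hch
  refine ⟨k, by exact_mod_cast hch0, ?_⟩
  have hLpos : (0 : ℝ) < L := by exact_mod_cast hL
  have hM0 : (0 : ℝ) < M := by exact_mod_cast hM
  have hR0 : (0 : ℝ) ≤ R := Nat.cast_nonneg _
  -- the terms
  have t1 : (R : ℝ) * Real.log L ≤ θ * l := by
    refine le_trans ?_ hlr
    apply mul_le_mul_of_nonneg_left _ hR0
    have e1 := Real.log_le_log hLpos hLy
    rw [Real.log_mul (by norm_num) (by positivity), Real.log_pow] at e1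
    refine e1.trans ?_
    have e2 : (⌊(y : ℝ) ^ τ⌋₊ : ℝ) ≤ X ^ τ :=
      (Nat.floor_le (by positivity)).trans (Real.rpow_le_rpow hy0.le hy1 hτ.le)
    have e3 : Real.log ((y : ℝ) + 1) ≤ Real.log (X + 1) :=
      Real.log_le_log (by positivity) (by linarith)
    have e4 : 0 ≤ Real.log ((y : ℝ) + 1) := Real.log_nonneg (by linarith)
    have e5 : ((2 * ⌊(y : ℝ) ^ τ⌋₊ : ℕ) : ℝ) * Real.log ((y : ℝ) + 1) ≤
        2 * (X ^ τ * Real.log (X + 1)) := by
      push_cast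
      calc 2 * (⌊(y : ℝ) ^ τ⌋₊ : ℝ) * Real.log ((y : ℝ) + 1)
          ≤ 2 * X ^ τ * Real.log (X + 1) := by gcongr
        _ = _ := by ring
    linarith
  have t3 : 2 * (k : ℝ) * (-Real.log η₀) ≤ θ * l := by
    calc 2 * (k : ℝ) * (-Real.log η₀) ≤ 2 * (k : ℝ) * (θ * Real.log X) :=
          mul_le_mul_of_nonneg_left he0 (by positivity)
      _ = 2 * θ * (k * Real.log X) := by ring
      _ ≤ 2 * θ * (l / 16) := mul_le_mul_of_nonneg_left hk3 (by positivity)
      _ ≤ θ * l := by nlinarith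
  have hlogX : Real.log X = C * Real.log l := by rw [hX, Real.log_rpow hl0]
  have t4 : k * (γ * Real.log X) ≤ Real.log (s.choose k : ℝ) := by
    have h3 := Real.log_le_log (by positivity) hch
    rw [Real.log_pow, Real.log_rpow hl0] at h3
    have e1 : γ * Real.log X = (C - 1) / 2 * Real.log l := by
      rw [hlogX, ← hγ]; ring
    rw [e1]
    exact h3
  have t6 : γ * (l / 16) - θ * l ≤ k * (γ * Real.log X) := by
    have e1 := mul_lt_mul_of_pos_left hk4 hγ0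
    have e2 : γ * (((k : ℝ) + 1) * Real.log X) = k * (γ * Real.log X) + γ * Real.log X := by ring
    have e3 : γ * Real.log X ≤ 1 * (θ * l) := mul_le_mul (by linarith) hlx hlX0.le (by norm_num)
    linarith
  have t8 : 0 ≤ θ * l := mul_nonneg hθ0.le hl0.le
  have t9 : Real.log (2 * (H : ℝ) + 1) ≤ Real.log 3 + l := by
    rw [hl, ← Real.log_mul (by norm_num) hH0.ne']
    exact Real.log_le_log (by positivity) (by linarith)
  have t9' : 0 ≤ Real.log (2 * (H : ℝ) + 1) := Real.log_nonneg (by linarith)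
  have t10 : 0 ≤ Real.log (3 : ℝ) := Real.log_nonneg (by norm_num)
  have t11 : γ * (l / 16) = 10 * (θ * l) := by rw [← hθ]; ring
  have t12 : γ / 32 * l = 5 * (θ * l) := by rw [← hθ]; ring
  have t13 : 640 * (θ * l) ≤ l := by nlinarith
  -- splitting
  have hη₀k : 0 < η₀ ^ (2 * k) := by positivity
  have hsplit : (L : ℝ) ^ R * (((s.choose k : ℝ) * (2 * (H : ℝ) + 1) ^ M +
        (s.choose k : ℝ) ^ 2 * (M * (y : ℝ) ^ (2 * k) * (2 * (H : ℝ) + 1) ^ (M - 1))) /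
        (η₀ ^ (2 * k) * (s.choose k : ℝ) ^ 2)) =
      (L : ℝ) ^ R * (2 * (H : ℝ) + 1) ^ M / (η₀ ^ (2 * k) * (s.choose k : ℝ)) +
      (L : ℝ) ^ R * (M * (y : ℝ) ^ (2 * k) * (2 * (H : ℝ) + 1) ^ (M - 1)) / η₀ ^ (2 * k) := by
    field_simp
  rw [hsplit]
  have hfirst : (L : ℝ) ^ R * (2 * (H : ℝ) + 1) ^ M / (η₀ ^ (2 * k) * (s.choose k : ℝ)) ≤
      (H : ℝ) ^ ((M : ℝ) - γ / 32) / 2 := by
    rw [← Real.log_le_log_iff (by positivity) (by positivity),
      Real.log_div (by positivity) (by positivity), Real.log_div (by positivity) (by norm_num),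
      Real.log_mul (by positivity) (by positivity), Real.log_mul (by positivity) hch0.ne',
      Real.log_pow, Real.log_pow, Real.log_pow, Real.log_rpow hH0, ← hl]
    have e1 : (M : ℝ) * Real.log (2 * (H : ℝ) + 1) ≤ M * Real.log 3 + M * l := by
      have := mul_le_mul_of_nonneg_left t9 hM0.le
      linarith
    have e3 : ((2 * k : ℕ) : ℝ) * Real.log η₀ = -(2 * (k : ℝ) * (-Real.log η₀)) := by
      push_cast
      ring
    have e4 : ((M : ℝ) - γ / 32) * l = M * l - γ / 32 * l := by ring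
    rw [e3, e4, t12]
    rw [t11] at t6
    linarith
  have hsecond : (L : ℝ) ^ R * (M * (y : ℝ) ^ (2 * k) * (2 * (H : ℝ) + 1) ^ (M - 1)) /
      η₀ ^ (2 * k) ≤ (H : ℝ) ^ ((M : ℝ) - γ / 32) / 2 := by
    rw [← Real.log_le_log_iff (by positivity) (by positivity),
      Real.log_div (by positivity) (by positivity), Real.log_div (by positivity) (by norm_num),
      Real.log_mul (by positivity) (by positivity), Real.log_mul (by positivity) (by positivity),
      Real.log_mul (by positivity) (by positivity), Real.log_pow, Real.log_pow, Real.log_pow,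
      Real.log_pow, Real.log_rpow hH0, ← hl]
    have hd1 : ((M - 1 : ℕ) : ℝ) = M - 1 := by
      rw [Nat.cast_sub hM, Nat.cast_one]
    have hd2 : (0 : ℝ) ≤ (M : ℝ) - 1 := by
      have : (1 : ℝ) ≤ M := by exact_mod_cast hM
      linarith
    have e1 : ((M : ℝ) - 1) * Real.log (2 * (H : ℝ) + 1) ≤ M * Real.log 3 + (M - 1) * l := by
      have := mul_le_mul_of_nonneg_left t9 hd2
      linarith
    have e3 : ((2 * k : ℕ) : ℝ) * Real.log η₀ = -(2 * (k : ℝ) * (-Real.log η₀)) := by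
      push_cast
      ring
    have e3' : ((2 * k : ℕ) : ℝ) * Real.log y ≤ 2 * (k * Real.log X) := by
      push_cast
      have : (k : ℝ) * Real.log y ≤ k * Real.log X := mul_le_mul_of_nonneg_left hlyX hk0
      linarith
    have e4 : ((M : ℝ) - γ / 32) * l = M * l - γ / 32 * l := by ring
    have e5 : ((M : ℝ) - 1) * l = M * l - l := by ring
    rw [e3, e4, hd1, t12]
    rw [e5] at e1
    linarith
  linarith

theorem main : S_PARK := by
  intro R M Y κ τ η₀ hM hκ hτ hτ1 hη₀ hη₀1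
  have hlog : Tendsto (fun H : ℕ => Real.log (H : ℝ)) atTop atTop :=
    Real.tendsto_log_atTop.comp tendsto_natCast_atTop_atTop
  have hC1 : 1 < 2 / (1 + τ) := by rw [lt_div_iff₀ (by positivity)]; linarith
  have hC2 : 2 / (1 + τ) ≤ 2 := by rw [div_le_iff₀ (by positivity)]; linarith
  have hCτ : 2 / (1 + τ) * τ < 1 := by
    rw [div_mul_eq_mul_div, div_lt_one (by positivity)]
    linarith
  have hθ : 0 < (1 - τ) / 640 := by linarith
  obtain ⟨H₀, hH₀⟩ := eventually_atTop.1 ((hlog.eventually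
    (big R M Y (η₀ := η₀) hκ hτ hC1 hC2 hCτ hθ)).and (eventually_ge_atTop 1))
  refine ⟨(1 - τ) / 4 / 32, by linarith, by linarith, max H₀ 1, le_max_right _ _, ?_⟩
  intro H hH
  obtain ⟨hB, hH1⟩ := hH₀ H ((le_max_left _ _).trans hH)
  exact main' hM hκ hτ hη₀ hη₀1 hC1 (γ := (1 - τ) / 4) (by field_simp; ring) (by linarith)
    (by linarith) hθ (by ring) hH1 hB

end Pool.Agent.W688.PV.PARK
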