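import Pool.Agent.W659.PV.Stm

/-! PV-MOMK (helper659): the second moment method in the box of integer vectors. -/

set_option autoImplicit false

namespace Pool.Agent.W688.PV.MOMK

open Pool.Agent.W659.PV Finset

theorem main : S_MOMK := by
  intro hMOM ι _ _ S k X H η B hη hη1 hB
  let d := Fintype.card ι
  let e : ι ≃ Fin d := Fintype.equivFin ι
  let E : (p : ℕ) → (Fin d → ZMod p) ≃ (ι → ZMod p) := fun p => Equiv.arrowCongr e.symm (Equiv.refl _)
  have hE : ∀ (p : ℕ) (f : Fin d → ZMod p) (i : ι), E p f i = f (e i) := fun p f i => rfl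
  have hd : 1 ≤ d := Fintype.card_pos
  have h1 := hMOM d S k X (2 * H + 1) η (fun _ _ => 1) (fun _ _ => -((H : ℤ) + 1))
    (fun p => (E p) ⁻¹' (B p)) hd hη hη1 (by
    intro p hpS
    obtain ⟨a1, a2, a3⟩ := hB p hpS
    refine ⟨a1, a2, fun i h => ?_, ?_⟩
    · have h2 := Int.natAbs_dvd_natAbs.2 h
      simp only [Int.natAbs_natCast, Int.natAbs_one, Nat.dvd_one] at h2
      exact a1.one_lt.ne' h2
    · have h3 : Nat.card ((E p) ⁻¹' (B p)) = (B p).ncard := by
        rw [← Nat.card_coe_set_eq (B p)]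
        exact Nat.card_congr ((E p).subtypeEquiv (fun a => Iff.rfl))
      rw [h3]
      exact a3)
  have hcast : ((2 * H + 1 : ℕ) : ℝ) = 2 * (H : ℝ) + 1 := by push_cast; ring
  rw [hcast] at h1
  refine le_trans ?_ h1
  refine mul_le_mul_of_nonneg_right ?_ (by positivity)
  rw [← Nat.card_coe_set_eq]
  have hb : ∀ (c : {c : ι → ℤ | (∀ i, |c i| ≤ H) ∧ ∀ p ∈ S, (fun i => (c i : ZMod p)) ∈ B p})
      (j : ι), (((c.1 j + (H + 1)).toNat : ℕ) : ℤ) = c.1 j + (H + 1) := by
    intro c j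
    have := abs_le.1 (c.2.1 j)
    rw [Int.toNat_of_nonneg]
    linarith [this.1]
  have hfin : Finite {t : Fin d → ℕ // (∀ i, t i ∈ Icc 1 (2 * H + 1)) ∧
      ∀ p ∈ S, (fun i => (((fun _ _ => 1 : ℕ → Fin d → ℤ) p i * t i +
        (fun _ _ => -((H : ℤ) + 1) : ℕ → Fin d → ℤ) p i : ℤ) : ZMod p)) ∈ (E p) ⁻¹' (B p)} := by
    have : {t : Fin d → ℕ | ∀ i, t i ∈ Set.Icc 1 (2 * H + 1)}.Finite :=
      Set.Finite.pi' fun _ => Set.finite_Icc _ _
    apply Set.Finite.subset this
    rintro c ⟨hc, -⟩ j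
    simpa using hc j
  have h5 := Nat.card_le_card_of_injective
    (α := {c : ι → ℤ | (∀ i, |c i| ≤ H) ∧ ∀ p ∈ S, (fun i => (c i : ZMod p)) ∈ B p})
    (β := {t : Fin d → ℕ // (∀ i, t i ∈ Icc 1 (2 * H + 1)) ∧
      ∀ p ∈ S, (fun i => (((fun _ _ => 1 : ℕ → Fin d → ℤ) p i * t i +
        (fun _ _ => -((H : ℤ) + 1) : ℕ → Fin d → ℤ) p i : ℤ) : ZMod p)) ∈ (E p) ⁻¹' (B p)})
    (fun c => ⟨fun j => (c.1 (e.symm j) + (H + 1)).toNat, by
      constructor
      · intro j
        have h2 := abs_le.1 (c.2.1 (e.symm j))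
        have h3 := hb c (e.symm j)
        rw [mem_Icc]
        constructor
        · zify; rw [h3]; linarith [h2.1]
        · zify; rw [h3]; linarith [h2.2]
      · intro p hpS
        have h2 := c.2.2 p hpS
        change (E p) _ ∈ B p
        convert h2 using 1
        funext i
        rw [hE]
        have h3 := hb c i
        simp only [Equiv.symm_apply_apply, h3]
        congr 1
        ring⟩) (by
      intro c c' hcc
      apply Subtype.ext
      funext j
      have h1 := congrArg (fun f => (((f.1 (e j) : ℕ) : ℤ))) hcc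
      simp only [Equiv.symm_apply_apply] at h1
      rw [hb c j, hb c' j] at h1
      linarith)
  exact_mod_cast h5

end Pool.Agent.W688.PV.MOMK
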